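import Pool.Agent.Helper48.TR.QAux
import Pool.Agent.Helper21.TR.Nontriv
import Pool.Agent.Helper59.TR.Q6
import Pool.Agent.Helper76.TR.Neutral
import Pool.Agent.Helper34.TR.Q3

/-!
Block Q7: the simple case with multiplicities.
-/

open Module LieModule LieAlgebra LieAlgebra.IsKilling
open MTP MTP.MF
open Pool.Agent.Helper54.MT (killing_of)

attribute [local instance 100] LieRing.ofAssociativeRing

namespace TR

variable {K : Type*} [Field K] [CharZero K] [IsAlgClosed K] {V : Type*} [AddCommGroup V]
  [Module K V] [FiniteDimensional K V] {ω : LinearMap.BilinForm K V}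

namespace Q7

omit [IsAlgClosed K] [FiniteDimensional K V] in
/-- The eigenvectors of `ad h` of value two. -/
lemma eq_sandwich {N f Y : Module.End K V} (hNN : N * N = 0) (hff : f * f = 0)
    (hNf : N * f * N = N) (hfN : f * N * f = f)
    (hY : (N * f - f * N) * Y - Y * (N * f - f * N) = (2 : K) • Y) : Y = N * (f * Y * f) * N := by
  have hEE : (N * f) * (N * f) = N * f := by rw [← mul_assoc, hNf]
  have hFF : (f * N) * (f * N) = f * N := by rw [← mul_assoc, hfN]
  have hEF : (N * f) * (f * N) = 0 := by
    have : (N * f) * (f * N) = N * (f * f) * N := by noncomm_ring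
    rw [this, hff]; simp
  have hFE : (f * N) * (N * f) = 0 := by
    have : (f * N) * (N * f) = f * (N * N) * f := by noncomm_ring
    rw [this, hNN]; simp
  have e0 : N * (f * Y * f) * N = (N * f) * Y * (f * N) := by noncomm_ring
  rw [e0]
  generalize N * f = E at *
  generalize f * N = F at *
  have hY' : E * Y - F * Y - Y * E + Y * F = (2 : K) • Y := by rw [← hY]; noncomm_ring
  have h1 : F * Y * E = 0 := by
    have h2 : F * (E * Y - F * Y - Y * E + Y * F) * E = (2 : K) • (F * Y * E) := by
      rw [hY', mul_smul_comm, smul_mul_assoc]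
    have h3 : F * (E * Y - F * Y - Y * E + Y * F) * E =
        (F * E) * Y * E - (F * F) * Y * E - F * Y * (E * E) + F * Y * (F * E) := by noncomm_ring
    rw [h3, hFE, hFF, hEE] at h2
    have h4 : (4 : K) • (F * Y * E) = 0 := by
      have h5 : (2 : K) • (F * Y * E) = -(F * Y * E) - F * Y * E := by
        rw [← h2]; simp
      have h6 : (4 : K) • (F * Y * E) = (2 : K) • (F * Y * E) + (2 : K) • (F * Y * E) := by module
      rw [h6]
      nth_rewrite 1 [h5]
      module
    exact (smul_eq_zero.mp h4).resolve_left (by norm_num)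
  have h2 : F * Y * F = 0 := by
    have h3 : F * (E * Y - F * Y - Y * E + Y * F) * F = (2 : K) • (F * Y * F) := by
      rw [hY', mul_smul_comm, smul_mul_assoc]
    have h4 : F * (E * Y - F * Y - Y * E + Y * F) * F =
        (F * E) * Y * F - (F * F) * Y * F - F * Y * (E * F) + F * Y * (F * F) := by noncomm_ring
    rw [h4, hFE, hFF, hEF] at h3
    have h5 : (2 : K) • (F * Y * F) = 0 := by rw [← h3]; simp
    exact (smul_eq_zero.mp h5).resolve_left two_ne_zero
  have h3 : F * Y = 0 := by
    have h4 : F * (E * Y - F * Y - Y * E + Y * F) = (2 : K) • (F * Y) := by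
      rw [hY', mul_smul_comm]
    have h5 : F * (E * Y - F * Y - Y * E + Y * F) =
        (F * E) * Y - (F * F) * Y - F * Y * E + F * Y * F := by noncomm_ring
    rw [h5, hFE, hFF, h1, h2] at h4
    have h6 : (3 : K) • (F * Y) = 0 := by
      have h7 : (3 : K) • (F * Y) = (2 : K) • (F * Y) + F * Y := by module
      rw [h7, ← h4]; simp
    exact (smul_eq_zero.mp h6).resolve_left three_ne_zero
  have h4 : E * Y * E = 0 := by
    have h5 : E * (E * Y - F * Y - Y * E + Y * F) * E = (2 : K) • (E * Y * E) := by
      rw [hY', mul_smul_comm, smul_mul_assoc]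
    have h6 : E * (E * Y - F * Y - Y * E + Y * F) * E =
        (E * E) * Y * E - (E * F) * Y * E - E * Y * (E * E) + E * Y * (F * E) := by noncomm_ring
    rw [h6, hFE, hEF, hEE] at h5
    have h7 : (2 : K) • (E * Y * E) = 0 := by rw [← h5]; simp
    exact (smul_eq_zero.mp h7).resolve_left two_ne_zero
  have h5 : Y * E = 0 := by
    have h6 : (E * Y - F * Y - Y * E + Y * F) * E = (2 : K) • (Y * E) := by
      rw [hY', smul_mul_assoc]
    have h7 : (E * Y - F * Y - Y * E + Y * F) * E =
        E * Y * E - F * Y * E - Y * (E * E) + Y * (F * E) := by noncomm_ring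
    rw [h7, hFE, hEE, h4, h1] at h6
    have h8 : (3 : K) • (Y * E) = 0 := by
      have h9 : (3 : K) • (Y * E) = (2 : K) • (Y * E) + Y * E := by module
      rw [h9, ← h6]; simp
    exact (smul_eq_zero.mp h8).resolve_left three_ne_zero
  rw [h3, h5, sub_zero, sub_zero] at hY'
  have h6 : E * Y + E * Y * F = (2 : K) • (E * Y) := by
    rw [← mul_smul_comm, ← hY', mul_add, ← mul_assoc E E, hEE, ← mul_assoc E Y]
  have h7 : E * Y * F + Y * F = (2 : K) • (Y * F) := by
    rw [← smul_mul_assoc, ← hY', add_mul, mul_assoc Y F, hFF]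
  have h8 : E * Y * F = E * Y := by
    rw [two_smul] at h6
    exact add_left_cancel h6
  have h9 : E * Y * F = Y * F := by
    rw [two_smul] at h7
    exact add_right_cancel h7
  have h10 : (2 : K) • Y = (2 : K) • (E * Y * F) := by
    calc (2 : K) • Y = E * Y + Y * F := hY'.symm
      _ = E * Y * F + E * Y * F := congrArg₂ (· + ·) h8.symm h9.symm
      _ = (2 : K) • (E * Y * F) := (two_smul K _).symm
  exact smul_right_injective _ two_ne_zero h10

omit [IsAlgClosed K] in
/-- An extremal element with its neutral element in a Cartan subalgebra is a root vector. -/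
theorem exists_root {L : LieSubalgebra K (Module.End K V)} [IsKilling K L]
    {H : LieSubalgebra K L} [H.IsCartanSubalgebra] {N f : Module.End K V} (hN : N ∈ L)
    (hf : f ∈ L) (hNN : N * N = 0) (hN0 : N ≠ 0)
    (hext : ∀ y ∈ L, ∃ c : K, N * y * N = c • N) (hff : f * f = 0) (hNf : N * f * N = N)
    (hfN : f * N * f = f) {h1 : L} (hh1 : (h1 : Module.End K V) = N * f - f * N)
    (hH : h1 ∈ H) : ∃ θ : H.root, (⟨N, hN⟩ : L) ∈ rootSpace H θ.1 := by
  have hsand : ∀ y ∈ L, f * y * f ∈ L := by
    intro y hy
    have h2 : ⁅f, ⁅f, y⁆⁆ ∈ L := L.lie_mem hf (L.lie_mem hf hy)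
    have h3 : ⁅f, ⁅f, y⁆⁆ = (-2 : K) • (f * y * f) := by
      rw [LieRing.of_associative_ring_bracket, LieRing.of_associative_ring_bracket]
      have : f * (f * y - y * f) - (f * y - y * f) * f
          = (f * f) * y - (f * y * f + f * y * f) + y * (f * f) := by noncomm_ring
      rw [this, hff]
      simp only [zero_mul, mul_zero, add_zero, zero_sub]
      module
    rw [h3] at h2
    have h4 := L.smul_mem (-2 : K)⁻¹ h2
    rwa [smul_smul, inv_mul_cancel₀ (by norm_num), one_smul] at h4
  have hab : ∀ t : H, ⁅(t : L), h1⁆ = 0 := by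
    intro t
    have h2 : ⁅t, (⟨h1, hH⟩ : H)⁆ = 0 := trivial_lie_zero H H t ⟨h1, hH⟩
    exact congrArg Subtype.val h2
  have h1N : (h1 : Module.End K V) * N - N * h1 = (2 : K) • N := by
    rw [hh1]
    have : (N * f - f * N) * N - N * (N * f - f * N)
        = N * f * N + N * f * N - f * (N * N) - (N * N) * f := by noncomm_ring
    rw [this, hNf, hNN, two_smul]
    simp
  have key : ∀ t : H, ∃ c : K, ⁅(t : L), (⟨N, hN⟩ : L)⁆ = c • (⟨N, hN⟩ : L) := by
    intro t
    set Y : L := ⁅(t : L), (⟨N, hN⟩ : L)⁆ with hYd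
    have hYe : (Y : Module.End K V) = ((t : L) : Module.End K V) * N - N * ((t : L) : Module.End K V) := by
      rw [hYd, LieSubalgebra.coe_bracket, LieRing.of_associative_ring_bracket]
    have hcomm : ((t : L) : Module.End K V) * h1 = h1 * ((t : L) : Module.End K V) := by
      have h2 := congrArg Subtype.val (hab t)
      rw [LieSubalgebra.coe_bracket, LieRing.of_associative_ring_bracket] at h2
      exact sub_eq_zero.mp h2
    have hY : (N * f - f * N) * (Y : Module.End K V) - Y * (N * f - f * N) = (2 : K) • (Y : Module.End K V) := by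
      rw [← hh1, hYe]
      set T := ((t : L) : Module.End K V)
      have e1 : (h1 : Module.End K V) * (T * N - N * T) - (T * N - N * T) * h1
          = T * (h1 * N - N * h1) - (h1 * N - N * h1) * T + (h1 * T - T * h1) * N
            - N * (h1 * T - T * h1) := by noncomm_ring
      rw [e1, h1N, hcomm, sub_self, zero_mul, mul_zero, add_zero, sub_zero, mul_smul_comm,
        smul_mul_assoc, smul_sub]
    have h2 := eq_sandwich hNN hff hNf hfN hY
    obtain ⟨c, hc⟩ := hext _ (hsand _ Y.2)
    exact ⟨c, Subtype.ext (by rw [h2, hc]; rfl)⟩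
  choose χ hχ using key
  have hmem : (⟨N, hN⟩ : L) ∈ rootSpace H χ := by
    apply weightSpace_le_genWeightSpace L χ
    rw [mem_weightSpace]
    intro t
    exact hχ t
  have hN' : (⟨N, hN⟩ : L) ≠ 0 := fun h => hN0 (congrArg Subtype.val h)
  let α : Weight K H L := ⟨χ, fun h => hN' (by
    have h2 : (⟨N, hN⟩ : L) ∈ (⊥ : LieSubmodule K H L) := by rw [← h]; exact hmem
    exact (LieSubmodule.mem_bot _).mp h2)⟩
  have hnz : α.IsNonZero := by
    intro h0
    have h2 : χ ⟨h1, hH⟩ = 0 := by
      have : (α : H → K) = 0 := h0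
      exact congrFun this _
    have h3 := hχ ⟨h1, hH⟩
    rw [h2, zero_smul] at h3
    have h4 := congrArg Subtype.val h3
    rw [LieSubalgebra.coe_bracket, LieRing.of_associative_ring_bracket] at h4
    rw [h1N] at h4
    exact hN0 ((smul_eq_zero.mp h4).resolve_left two_ne_zero)
  exact ⟨⟨α, by simpa [LieSubalgebra.root] using hnz⟩, hmem⟩

end Q7

/-- Q7: the simple case with multiplicities. -/
theorem simple_plus {L : LieSubalgebra K (Module.End K V)} {S : Set (Module.End K V)}
    (hC : Ctx ω L.toSubmodule S) (halt : ω.IsAlt) (hsimple : IsSimple K L)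
    {N h : Module.End K V} (hN : N ∈ L) (hNN : N * N = 0) (hN0 : N ≠ 0)
    (hh : h ∈ L) (hdiag : ⨆ q : ℚ, h.eigenspace (q : K) = ⊤) {σ : K} (hσ : h * N = σ • N) :
    (∀ z, IsSk ω z → z ∈ L) ∨
    ∃ a : K, ∀ v, N v = 0 → ∃ w, h (h v) - (a * a) • v = N w := by
  classical
  by_cases hfull : ∀ z, IsSk ω z → z ∈ L
  · exact Or.inl hfull
  right
  have hnd := hC.nd
  have hV : Nontrivial V := by
    by_contra hcon
    rw [not_nontrivial_iff_subsingleton] at hcon
    exact hN0 (Subsingleton.elim _ _)
  have hσ' : ∀ w, h (N w) = σ • N w := fun w => LinearMap.congr_fun hσ w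
  -- the kernel is the image
  have hker : finrank K V ≤ 2 * rk N →
      ∃ a : K, ∀ v, N v = 0 → ∃ w, h (h v) - (a * a) • v = N w := by
    intro h2
    refine ⟨0, fun v hv => ?_⟩
    have hle : LinearMap.range N ≤ LinearMap.ker N := by
      rintro _ ⟨w, rfl⟩
      rw [LinearMap.mem_ker]
      exact LinearMap.congr_fun hNN w
    have hrn := LinearMap.finrank_range_add_finrank_ker N
    have heq : LinearMap.range N = LinearMap.ker N := by
      apply Submodule.eq_of_le_of_finrank_le hle
      unfold rk at h2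
      omega
    have hv' : v ∈ LinearMap.ker N := hv
    rw [← heq] at hv'
    obtain ⟨w, rfl⟩ := hv'
    refine ⟨(σ * σ) • w, ?_⟩
    rw [hσ', map_smul, hσ', map_smul, smul_smul, mul_zero, zero_smul, sub_zero]
  rcases ext_or_split (L := L.toSubmodule) hC.irr hnd hN hNN hN0 with
    ⟨u, hu, v, hv, huu, hvv, hrk, hu0, hv0⟩ | hext
  · -- the split case
    apply hker
    have hq : ∀ u ∈ L, u * u = 0 → 0 < rk u → finrank K V ≤ 4 * rk u := by
      intro u hu huu hu0
      rcases simple_class hC halt hsimple hu huu (rk_pos.mp hu0) with h1 | ⟨m, hm, hm3, hD, hr⟩ |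
        ⟨n, hn, hn5, hD, hr⟩
      · exact absurd h1 hfull
      · have h2 := choose_lt (m := m) (by omega)
        rw [hD, hr]
        omega
      · obtain ⟨k, rfl⟩ : ∃ k, n = k + 2 := ⟨n - 2, by omega⟩
        have e1 : k + 2 - 2 = k := by omega
        have e2 : k + 2 - 1 = k + 1 := by omega
        rw [e1, e2] at hr
        rw [hD, pow_add]
        rcases hr with hr | hr <;> rw [hr]
        · omega
        · rw [pow_succ]; omega
    have h1 := hq u hu huu hu0
    have h2 := hq v hv hvv hv0
    omega
  · -- the extremal case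
    have hk : IsKilling K L := killing_of hnd hC.irr
    obtain ⟨f, hf, hff, hNf, hfN, hcomm⟩ := neutral hC hN hNN hN0 hext hh hdiag hσ
    obtain ⟨s, H, hH, hsH, hss, hsN, hhH, h1, hh1, hh1H⟩ :=
      exists_cartan_three hC hk hN hNN hN0 hext hh hdiag hf hff hNf hfN hcomm
    obtain ⟨θ, hθ⟩ := Q7.exists_root (H := H) hN hf hNN hN0 hext hff hNf hfN hh1 hh1H
    have hne : Nonempty H.root := ⟨θ⟩
    have hirrR : (rootSystem H).IsIrreducible := inferInstance
    have hirr : ∀ W : Submodule K V, (∀ x : L, ∀ u ∈ W, ⁅x, u⁆ ∈ W) → W = ⊥ ∨ W = ⊤ :=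
      fun W hW => hC.irr.irr W fun z hz w hw => hW ⟨z, hz⟩ w hw
    have hsk : ∀ (x : L) (u v : V), ω ⁅x, u⁆ v = - ω u ⁅x, v⁆ := by
      intro x u v
      exact hC.irr.sk x x.2 u v
    have hfaith : ∀ x : L, (∀ u : V, ⁅x, u⁆ = 0) → x = 0 := by
      intro x hx
      apply Subtype.ext
      ext u
      exact hx u
    obtain ⟨n, ⟨B⟩⟩ := exists_WB (V := V) (H := H) hirr
    have hI : Nonempty (Fin n) := B.v.index_nonempty
    set s' : H := ⟨s, hsH⟩ with hs'
    have hsB : ∀ i, B.w i s' = 1 ∨ B.w i s' = -1 := by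
      intro i
      have h1 : (s : Module.End K V) (B.v i) = B.w i s' • B.v i := B.lie_v i s'
      have h2 : (s : Module.End K V) ((s : Module.End K V) (B.v i)) = B.v i :=
        LinearMap.congr_fun hss (B.v i)
      rw [h1, map_smul, h1, smul_smul] at h2
      have h3 : (B.w i s' * B.w i s' - 1) • B.v i = 0 := by rw [sub_smul, h2, one_smul, sub_self]
      have h4 := (smul_eq_zero.mp h3).resolve_right (B.v.ne_zero i)
      have h5 : (B.w i s' - 1) * (B.w i s' + 1) = 0 := by linear_combination h4
      rcases mul_eq_zero.mp h5 with h6 | h6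
      · left; linear_combination h6
      · right; linear_combination h6
    have hsq : ∀ (α : H.root) (x : L), x ∈ rootSpace H α.1 →
        toEnd K L V x * toEnd K L V x = 0 := fun α x hx => sq_zero B hfaith hsB hI α hx
    have hWS := weightSet B hirr hnd hsk hsq
    have hinj := mult_one B hirr hnd hsk hsq
    set X : Finset (Dual K H) := Finset.univ.image B.w with hX
    have hXr : (X : Set (Dual K H)) = Set.range B.w := by
      rw [hX, Finset.coe_image, Finset.coe_univ, Set.image_univ]
    have hXm : ∀ i, B.w i ∈ X := fun i => Finset.mem_image_of_mem _ (Finset.mem_univ _)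
    have hpar : Par (rootSystem H) X := par B hirr hnd halt hsk (small B hsq) (by
      intro x hx
      rw [hX, Finset.mem_image] at hx
      obtain ⟨i, -, hi⟩ := hx
      exact ⟨i, hi⟩)
    -- the root is long
    have hN'0 : (⟨N, hN⟩ : L) ≠ 0 := fun h => hN0 (congrArg Subtype.val h)
    have hext' : ∀ y : L, ∃ c : K, ⁅(⟨N, hN⟩ : L), ⁅(⟨N, hN⟩ : L), y⁆⁆ = c • (⟨N, hN⟩ : L) := by
      intro y
      obtain ⟨c, hc⟩ := hext y y.2
      refine ⟨-2 * c, Subtype.ext ?_⟩
      rw [LieSubalgebra.coe_bracket, LieSubalgebra.coe_bracket,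
        LieRing.of_associative_ring_bracket, LieRing.of_associative_ring_bracket]
      have e1 : N * (N * (y : Module.End K V) - y * N) - (N * (y : Module.End K V) - y * N) * N
          = (N * N) * y - (N * y * N + N * y * N) + y * (N * N) := by noncomm_ring
      change N * (N * (y : Module.End K V) - y * N) - (N * (y : Module.End K V) - y * N) * N = _
      rw [e1, hNN, hc]
      change _ = (-2 * c) • N
      simp only [zero_mul, mul_zero, add_zero, zero_sub]
      module
    have hlong := Q7.long_of_ext B hfaith hsq hθ hN'0 hext'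
    -- the value of the involution
    have hNs : ∀ u, N ((s : Module.End K V) u) = - N u := by
      intro u
      rw [eq_neg_iff_add_eq_zero]
      apply hnd.1
      intro y
      have e1 : ω (N ((s : Module.End K V) u)) y = - ω ((s : Module.End K V) u) (N y) :=
        hC.irr.sk N hN _ _
      have e2 : ω ((s : Module.End K V) u) (N y) = - ω u ((s : Module.End K V) (N y)) :=
        hC.irr.sk s s.2 _ _
      have e3 : (s : Module.End K V) (N y) = N y := LinearMap.congr_fun hsN y
      have e4 : ω (N u) y = - ω u (N y) := hC.irr.sk N hN _ _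
      rw [map_add, LinearMap.add_apply, e1, e2, e3, e4]
      ring
    have hsθ : θ.1 s' = 2 := by
      have e1 : ⁅(s' : L), (⟨N, hN⟩ : L)⁆ = θ.1 s' • (⟨N, hN⟩ : L) := lie_root hθ s'
      have e2 := congrArg Subtype.val e1
      rw [LieSubalgebra.coe_bracket, LieRing.of_associative_ring_bracket] at e2
      have e3 : (s : Module.End K V) * N - N * s = (2 : K) • N := by
        have : N * s = - N := LinearMap.ext hNs
        rw [hsN, this, two_smul]
        abel
      have e4 : (2 : K) • N = θ.1 s' • N := by rw [← e3]; exact e2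
      exact (smul_left_injective K hN0 e4).symm
    -- two weights of value one
    have hrk2 : 2 ≤ rk N := by
      have h2 : 0 < rk N := rk_pos.mpr hN0
      by_contra h3
      have h4 : rk N = 1 := by omega
      exact hfull fun z hz => hC.eq_sp_of_odd halt hN hNN (by rw [h4]; exact odd_one) hz
    have hrk : rk (toEnd K L V (⟨N, hN⟩ : L)) =
        (Finset.univ.filter (fun i => B.w i (coroot θ.1) = 1)).card :=
      rank_root B hsq θ hθ hN'0
    have hrk' : rk (toEnd K L V (⟨N, hN⟩ : L)) = rk N := rfl
    rw [hrk'] at hrk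
    obtain ⟨i0, hi0, j0, hj0, hij0⟩ := Finset.one_lt_card.mp (by rw [← hrk]; exact hrk2)
    rw [Finset.mem_filter] at hi0 hj0
    -- the eigenvalue of `h` on the image
    set h' : H := ⟨⟨h, hh⟩, hhH⟩ with hh'
    have hval1 : ∀ i, B.w i (coroot θ.1) = 1 → B.w i h' = σ := by
      intro i hi
      obtain ⟨e0, f0, ht, he', hf'⟩ := exists_triple θ
      obtain ⟨c', hc'⟩ := mem_line hθ hN'0 he'
      rcases B45.cases B hsq i ht he' hf' with ⟨h2, -, -⟩ | h2 | ⟨-, -, h2⟩
      · rw [hi] at h2; norm_num at h2
      · rw [hi] at h2; norm_num at h2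
      · have h3 : B.v i = N (c' • ⁅f0, B.v i⁆) := by
          rw [map_smul]
          conv_lhs => rw [← h2, hc', smul_lie]
          rfl
        have h4 : h (B.v i) = B.w i h' • B.v i := B.lie_v i h'
        rw [h3, hσ', ← h3] at h4
        exact (smul_left_injective K (B.v.ne_zero i) h4).symm
    -- the eigenvalues of `h` on the middle part
    have hconst : ∀ i j, B.w i s' = 1 → B.w j s' = 1 → B.w i (coroot θ.1) = 0 →
        B.w j (coroot θ.1) = 0 → B.w i h' = B.w j h' := by
      intro i j hi hj hi' hj'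
      have h2 := rx_const (P := rootSystem H) (X := X) (by rw [hXr]; exact hWS)
        ⟨B.w i0, hXm i0⟩ (Module.Dual.eval K H s') (by
          intro x hx
          rw [hX, Finset.mem_image] at hx
          obtain ⟨i, -, rfl⟩ := hx
          exact hsB i) RootPairing.IsRootSystem.span_root_eq_top hpar hlong
        (by exact hsθ) (hXm i0) (hXm j0) (fun h => hij0 (hinj h))
        (by exact hi0.2) (by exact hj0.2)
        (Module.Dual.eval K H (h' - σ • coroot θ.1)) (by
          intro x hx hx1
          rw [hX, Finset.mem_image] at hx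
          obtain ⟨k, -, rfl⟩ := hx
          have hx1' : B.w k (coroot θ.1) = 1 := hx1
          change B.w k (h' - σ • coroot θ.1) = 0
          rw [map_sub, map_smul, hx1', hval1 k hx1', smul_eq_mul, mul_one, sub_self])
        (hXm i) (hXm j) (by exact hi) (by exact hj) (by exact hi') (by exact hj')
      have h3 : B.w i (h' - σ • coroot θ.1) = B.w j (h' - σ • coroot θ.1) := h2
      rw [map_sub, map_sub, map_smul, map_smul, hi', hj'] at h3
      simpa using h3
    have hneg : ∀ i, ∃ j, B.w j = - B.w i := by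
      intro i
      obtain ⟨j, hj⟩ := hWS.neg (B.w i) ⟨i, rfl⟩
      exact ⟨j, hj⟩
    have hex : ∃ a : K, ∀ i, B.w i (coroot θ.1) = 0 → B.w i h' * B.w i h' = a * a := by
      by_cases hex : ∃ i, B.w i s' = 1 ∧ B.w i (coroot θ.1) = 0
      · obtain ⟨k, hk1, hk2⟩ := hex
        refine ⟨B.w k h', fun i hi => ?_⟩
        rcases hsB i with h2 | h2
        · rw [hconst i k h2 hk1 hi hk2]
        · obtain ⟨j, hj⟩ := hneg i
          have h3 : B.w j s' = 1 := by rw [hj, LinearMap.neg_apply, h2, neg_neg]
          have h4 : B.w j (coroot θ.1) = 0 := by rw [hj, LinearMap.neg_apply, hi, neg_zero]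
          have h5 := hconst j k h3 hk1 h4 hk2
          rw [hj, LinearMap.neg_apply] at h5
          rw [← h5]
          ring
      · refine ⟨0, fun i hi => ?_⟩
        exfalso
        apply hex
        rcases hsB i with h2 | h2
        · exact ⟨i, h2, hi⟩
        · obtain ⟨j, hj⟩ := hneg i
          exact ⟨j, by rw [hj, LinearMap.neg_apply, h2, neg_neg],
            by rw [hj, LinearMap.neg_apply, hi, neg_zero]⟩
    obtain ⟨a, ha⟩ := hex
    refine ⟨a, fun v hv => ?_⟩
    obtain ⟨w, hw⟩ := Q7.ker_sq B hsq hθ hN'0 (h := h') hval1 ha (v := v) hv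
    exact ⟨w, hw⟩

end TR
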