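import Pool.Agent.Helper21.TR.Simple

/-!
Auxiliary results for block Q7 (`simple_plus`): extremal root vectors belong to long roots, the
kernel of a root vector, recognition of root vectors.
-/

open Module LieModule LieAlgebra LieAlgebra.IsKilling

attribute [local instance 100] LieRing.ofAssociativeRing

namespace TR

section abs
open MTP MTP.MF Pool.Agent.Helper54.MT
variable {K : Type*} [Field K] [CharZero K] [IsAlgClosed K]
  {L : Type*} [LieRing L] [LieAlgebra K L] [FiniteDimensional K L] [IsKilling K L]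
  {H : LieSubalgebra K L} [H.IsCartanSubalgebra]
  {V : Type*} [AddCommGroup V] [Module K V] [FiniteDimensional K V]
  [LieRingModule L V] [LieModule K L V] {I : Type*} [Fintype I] (B : WB (V := V) H I)

namespace Q7

/-- The weights take the values `-1, 0, 1` on a coroot. -/
lemma val (hsq : ∀ (α : H.root) (x : L), x ∈ rootSpace H α.1 →
      toEnd K L V x * toEnd K L V x = 0) (θ : H.root) (i : I) :
    B.w i (coroot θ.1) = -1 ∨ B.w i (coroot θ.1) = 0 ∨ B.w i (coroot θ.1) = 1 :=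
  small B hsq i θ

include B

/-- A root with value `-2` on the coroot of an extremal root vector is opposite to it. -/
lemma opp_of_ext (hfaith : ∀ x : L, (∀ u : V, ⁅x, u⁆ = 0) → x = 0)
    (hsq : ∀ (α : H.root) (x : L), x ∈ rootSpace H α.1 →
      toEnd K L V x * toEnd K L V x = 0) {θ : H.root} {e : L} (he : e ∈ rootSpace H θ.1)
    (he0 : e ≠ 0) (hext : ∀ y : L, ∃ c : K, ⁅e, ⁅e, y⁆⁆ = c • e) (β : H.root)
    (hβ : β.1 (coroot θ.1) = -2) (t : H) : β.1 t = - θ.1 t := by
  classical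
  obtain ⟨x, hx, hx0⟩ := β.1.exists_ne_zero
  obtain ⟨e0, f0, ht, he', hf'⟩ := exists_triple θ
  obtain ⟨c', hc'⟩ := mem_line he he0 he'
  have hcx : ⁅((coroot θ.1 : H) : L), x⁆ = (-2 : K) • x := by
    rw [lie_root hx, hβ]
  have hhe : ⁅((coroot θ.1 : H) : L), e0⁆ = (2 : K) • e0 := by
    rw [lie_root he', root_apply_coroot (H.isNonZero_coe_root θ)]
  have hhf : ⁅((coroot θ.1 : H) : L), f0⁆ = -((2 : K) • f0) := by
    rw [ht.lie_h_f_nsmul, ofNat_smul_eq_nsmul K]
  have hfe : ⁅f0, e0⁆ = - ((coroot θ.1 : H) : L) := by rw [← ht.lie_e_f, lie_skew]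
  -- `[f, x] = 0`
  have hy : ⁅f0, x⁆ = 0 := by
    apply hfaith
    have h1 : ⁅((coroot θ.1 : H) : L), ⁅f0, x⁆⁆ = (-4 : K) • ⁅f0, x⁆ := by
      rw [leibniz_lie, hhf, hcx, neg_lie, smul_lie, lie_smul]
      module
    have h2 : ∀ i, ⁅⁅f0, x⁆, B.v i⁆ = 0 := by
      intro i
      apply B.v.repr.injective
      rw [map_zero]
      ext j
      by_contra hj
      have h3 : ⁅((coroot θ.1 : H) : L), ⁅⁅f0, x⁆, B.v i⁆⁆
          = (-4 + B.w i (coroot θ.1)) • ⁅⁅f0, x⁆, B.v i⁆ := by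
        rw [leibniz_lie, h1, B.lie_v, smul_lie, lie_smul, ← add_smul]
      have h4 := B.coord h3 hj
      rcases val B hsq θ i with h5 | h5 | h5 <;> rcases val B hsq θ j with h6 | h6 | h6 <;>
        rw [h5, h6] at h4 <;> norm_num at h4
    intro u
    rw [← B.v.sum_repr u, lie_sum]
    exact Finset.sum_eq_zero fun i _ => by rw [lie_smul, h2, smul_zero]
  have hz : ⁅f0, ⁅e0, x⁆⁆ = (2 : K) • x := by
    rw [leibniz_lie, hfe, hy, lie_zero, add_zero, neg_lie, hcx]
    module
  have hhz : ⁅((coroot θ.1 : H) : L), ⁅e0, x⁆⁆ = 0 := by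
    rw [leibniz_lie, hhe, hcx, smul_lie, lie_smul]
    module
  have hzz : ⁅f0, ⁅e0, ⁅e0, x⁆⁆⁆ = (2 : K) • ⁅e0, x⁆ := by
    rw [leibniz_lie f0 e0, hfe, hz, neg_lie, hhz, lie_smul]
    module
  have hne : ⁅e0, ⁅e0, x⁆⁆ ≠ 0 := by
    intro h0
    rw [h0, lie_zero] at hzz
    have h1 := (smul_eq_zero.mp hzz.symm).resolve_left two_ne_zero
    rw [h1, lie_zero] at hz
    exact hx0 ((smul_eq_zero.mp hz.symm).resolve_left two_ne_zero)
  obtain ⟨d, hd⟩ := hext x
  have hd' : ⁅e0, ⁅e0, x⁆⁆ = (c' * c' * d) • e := by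
    rw [hc', smul_lie, smul_lie, lie_smul, hd, smul_smul, smul_smul]
  have h1 : ⁅(t : L), ⁅e0, ⁅e0, x⁆⁆⁆ = (θ.1 t + (θ.1 t + β.1 t)) • ⁅e0, ⁅e0, x⁆⁆ := by
    have h2 : ⁅(t : L), ⁅e0, x⁆⁆ = (θ.1 t + β.1 t) • ⁅e0, x⁆ := by
      rw [leibniz_lie, lie_root he', lie_root hx, smul_lie, lie_smul, add_smul]
    rw [leibniz_lie, h2, lie_root he', smul_lie, lie_smul, add_smul (θ.1 t) (θ.1 t + β.1 t)]
  have h2 : ⁅(t : L), ⁅e0, ⁅e0, x⁆⁆⁆ = θ.1 t • ⁅e0, ⁅e0, x⁆⁆ := by
    rw [hd', lie_smul, lie_root he, smul_comm]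
  rw [h2] at h1
  have h3 := smul_left_injective K hne h1
  linear_combination -h3

/-- Extremal root vectors belong to long roots. -/
theorem long_of_ext (hfaith : ∀ x : L, (∀ u : V, ⁅x, u⁆ = 0) → x = 0)
    (hsq : ∀ (α : H.root) (x : L), x ∈ rootSpace H α.1 →
      toEnd K L V x * toEnd K L V x = 0) {θ : H.root} {e : L} (he : e ∈ rootSpace H θ.1)
    (he0 : e ≠ 0) (hext : ∀ y : L, ∃ c : K, ⁅e, ⁅e, y⁆⁆ = c • e) :
    Long (rootSystem H) θ := by
  intro i hi hneg
  have h1 : i.1 (coroot θ.1) = (((rootSystem H).pairingIn ℤ i θ : ℤ) : K) :=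
    pair_cast (P := rootSystem H) i θ
  obtain ⟨a, b, hab⟩ := B.root_apply hfaith i
  have h2 := hab (coroot θ.1)
  have hm2 : (rootSystem H).pairingIn ℤ i θ ≠ -2 := by
    intro h3
    apply hneg
    rw [h3] at h1
    ext t
    exact opp_of_ext B hfaith hsq he he0 hext i (by rw [h1]; norm_num) t
  have hp2 : (rootSystem H).pairingIn ℤ i θ ≠ 2 := by
    intro h3
    apply hi
    rw [h3] at h1
    have h4 : ∀ t, (nroot i).1 t = - θ.1 t := fun t =>
      opp_of_ext B hfaith hsq he he0 hext (nroot i) (by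
        change -(i.1 (coroot θ.1)) = -2
        rw [h1]; norm_num) t
    apply Subtype.ext
    apply Weight.ext
    intro t
    have h5 : -(i.1 t) = -(θ.1 t) := h4 t
    exact neg_injective h5
  set p := (rootSystem H).pairingIn ℤ i θ with hp
  have key : ∀ z : ℤ, i.1 (coroot θ.1) = (z : K) → p = z := by
    intro z hz
    rw [h1] at hz
    exact_mod_cast hz
  rcases val B hsq θ a with h3 | h3 | h3 <;> rcases val B hsq θ b with h4 | h4 | h4 <;>
    rw [h3, h4] at h2
  · right; left; exact key 0 (by push_cast; linear_combination -h2)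
  · right; right; exact key 1 (by push_cast; linear_combination -h2)
  · exact absurd (key 2 (by push_cast; linear_combination -h2)) hp2
  · left; exact key (-1) (by push_cast; linear_combination -h2)
  · right; left; exact key 0 (by push_cast; linear_combination -h2)
  · right; right; exact key 1 (by push_cast; linear_combination -h2)
  · exact absurd (key (-2) (by push_cast; linear_combination -h2)) hm2
  · left; exact key (-1) (by push_cast; linear_combination -h2)
  · right; left; exact key 0 (by push_cast; linear_combination -h2)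

omit [CharZero K] [IsAlgClosed K] [FiniteDimensional K L] [IsKilling K L]
  [H.IsCartanSubalgebra] [FiniteDimensional K V] in
/-- A vector all of whose coordinates have the same value on `h` is an eigenvector. -/
lemma eig {u : V} {h : H} {c : K} (hu : ∀ i, B.v.repr u i ≠ 0 → B.w i h = c) :
    ⁅(h : L), u⁆ = c • u := by
  conv_lhs => rw [← B.v.sum_repr u]
  conv_rhs => rw [← B.v.sum_repr u]
  rw [lie_sum, Finset.smul_sum]
  refine Finset.sum_congr rfl fun i _ => ?_
  by_cases hi : B.v.repr u i = 0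
  · rw [hi, zero_smul, lie_zero, smul_zero]
  · rw [lie_smul, B.lie_v, hu i hi, smul_comm]

/-- The square of `h` on the kernel of a root vector. -/
theorem ker_sq (hsq : ∀ (α : H.root) (x : L), x ∈ rootSpace H α.1 →
      toEnd K L V x * toEnd K L V x = 0) {θ : H.root} {e : L} (he : e ∈ rootSpace H θ.1)
    (he0 : e ≠ 0) {h : H} {σ a : K} (h1 : ∀ i, B.w i (coroot θ.1) = 1 → B.w i h = σ)
    (h0 : ∀ i, B.w i (coroot θ.1) = 0 → B.w i h * B.w i h = a * a) {v : V}
    (hv : ⁅e, v⁆ = 0) : ∃ w : V, ⁅(h : L), ⁅(h : L), v⁆⁆ - (a * a) • v = ⁅e, w⁆ := by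
  obtain ⟨e0, f0, he', he0', hT, hEE, hFF, hEF, hFE⟩ := triple_rel (V := V) hsq θ
  obtain ⟨c', hc'⟩ := mem_line he he0 he'
  set E := toEnd K L V e0 with hE
  set F := toEnd K L V f0 with hF
  have hEv : E v = 0 := by
    change ⁅e0, v⁆ = 0
    rw [hc', smul_lie, hv, smul_zero]
  have hTx : ∀ u : V, ⁅((coroot θ.1 : H) : L), u⁆ = E (F u) - F (E u) := fun u =>
    LinearMap.congr_fun hT u
  have hE1 : ∀ u, E (E u) = 0 := fun u => LinearMap.congr_fun hEE u
  have hE3 : ∀ u, E (F (E u)) = E u := fun u => LinearMap.congr_fun hEF u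
  -- the component in the zero eigenspace
  set v0 := v - E (F v) with hv0
  have hTv0 : ⁅((coroot θ.1 : H) : L), v0⁆ = (0 : K) • v0 := by
    rw [zero_smul, hTx, hv0, map_sub, map_sub, map_sub, map_sub, hEv, hE3, hE1, map_zero]
    simp
  have hTE : ∀ u, ⁅((coroot θ.1 : H) : L), E u⁆ = (1 : K) • E u := by
    intro u
    rw [hTx, hE3, hE1, map_zero, sub_zero, one_smul]
  have hhE : ∀ u, ⁅(h : L), E u⁆ = σ • E u := fun u =>
    eig B fun i hi => h1 i (B.coord (hTE u) hi)
  have hhv0 : ⁅(h : L), ⁅(h : L), v0⁆⁆ = (a * a) • v0 := by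
    have key : ∀ i, B.v.repr v0 i ≠ 0 → B.w i h * B.w i h = a * a := fun i hi =>
      h0 i (B.coord hTv0 hi)
    conv_lhs => rw [← B.v.sum_repr v0]
    conv_rhs => rw [← B.v.sum_repr v0]
    rw [lie_sum, lie_sum, Finset.smul_sum]
    refine Finset.sum_congr rfl fun i _ => ?_
    by_cases hi : B.v.repr v0 i = 0
    · rw [hi, zero_smul, lie_zero, lie_zero, smul_zero]
    · rw [lie_smul, lie_smul, B.lie_v, lie_smul, B.lie_v, smul_smul (B.w i h), key i hi,
        smul_comm]
  refine ⟨(σ * σ - a * a) • (c' • F v), ?_⟩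
  have h2 : v = v0 + E (F v) := by rw [hv0]; abel
  have h3 : ⁅(h : L), ⁅(h : L), v⁆⁆ = (a * a) • v0 + (σ * σ) • E (F v) := by
    conv_lhs => rw [h2]
    rw [lie_add, lie_add, hhv0, hhE, lie_smul, hhE, smul_smul]
  have h4 : ⁅e, (σ * σ - a * a) • (c' • F v)⁆ = (σ * σ - a * a) • E (F v) := by
    rw [lie_smul, lie_smul, ← smul_lie, ← hc']
    rfl
  have h5 : (a * a) • v = (a * a) • v0 + (a * a) • E (F v) := by rw [← smul_add, ← h2]
  rw [h3, h4, h5]
  module

end Q7

end abs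

end TR
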